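import Pool.Agent.Helper44.GH.Stmts

open MeasureTheory Set Filter
open scoped ENNReal NNReal BigOperators Topology

namespace Pool.Agent.Helper44.GH
open Pool.Agent.Helper44.GF Pool.Agent.Helper44.GN

/-- Almost every point of the push forward lies in the unit interval. -/
theorem lapu_ae (ρ : Measure ℝ) (h : ρ (Set.Iio 0) = 0) :
    ∀ᵐ t ∂(ρ.map (fun x : ℝ => Real.exp (-x))), t ∈ Set.Icc (0 : ℝ) 1 := by
  have he : Measurable (fun x : ℝ => Real.exp (-x)) := by fun_prop
  refine (ae_map_iff he.aemeasurable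
    (p := fun t => t ∈ Set.Icc (0 : ℝ) 1) measurableSet_Icc).mpr ?_
  have h0 : ∀ᵐ x ∂ρ, x ∉ Set.Iio (0 : ℝ) := measure_eq_zero_iff_ae_notMem.mp h
  filter_upwards [h0] with x hx
  have hx' : 0 ≤ x := not_lt.mp hx
  exact ⟨(Real.exp_pos _).le, by simpa using hx'⟩

/-- Powers are integrable for the push forward. -/
theorem lapu_int (ρ : Measure ℝ) [IsFiniteMeasure ρ] (h : ρ (Set.Iio 0) = 0) (g : ℝ → ℝ)
    (hg : Continuous g) : Integrable g (ρ.map (fun x : ℝ => Real.exp (-x))) := by
  obtain ⟨C, hC⟩ := (isCompact_Icc (a := (0 : ℝ)) (b := 1)).exists_bound_of_continuousOn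
    hg.continuousOn
  refine Integrable.of_bound hg.aestronglyMeasurable C ?_
  filter_upwards [lapu_ae ρ h] with t ht
  exact hC t ht

theorem lapu_poly (μ ν : Measure ℝ) [IsFiniteMeasure μ] [IsFiniteMeasure ν]
    (hμ : μ (Set.Iio 0) = 0) (hν : ν (Set.Iio 0) = 0)
    (h : ∀ k : ℕ, ∫ x, Real.exp (-(k * x)) ∂μ = ∫ x, Real.exp (-(k * x)) ∂ν)
    (p : Polynomial ℝ) :
    ∫ t, p.eval t ∂(μ.map (fun x : ℝ => Real.exp (-x)))
      = ∫ t, p.eval t ∂(ν.map (fun x : ℝ => Real.exp (-x))) := by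
  have he : Measurable (fun x : ℝ => Real.exp (-x)) := by fun_prop
  have hk : ∀ (ρ : Measure ℝ) (k : ℕ), ∫ t, t ^ k ∂(ρ.map (fun x : ℝ => Real.exp (-x)))
      = ∫ x, Real.exp (-(k * x)) ∂ρ := by
    intro ρ k
    rw [integral_map he.aemeasurable (by fun_prop)]
    refine integral_congr_ae (Eventually.of_forall fun x => ?_)
    simp only
    rw [← Real.exp_nat_mul]
    congr 1
    ring
  have hs : ∀ (ρ : Measure ℝ) [IsFiniteMeasure ρ], ρ (Set.Iio 0) = 0 →
      ∫ t, p.eval t ∂(ρ.map (fun x : ℝ => Real.exp (-x)))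
        = ∑ i ∈ Finset.range (p.natDegree + 1),
          p.coeff i * ∫ x, Real.exp (-(i * x)) ∂ρ := by
    intro ρ _ hρ
    simp only [Polynomial.eval_eq_sum_range]
    rw [integral_finsetSum]
    · refine Finset.sum_congr rfl fun i _ => ?_
      rw [integral_const_mul, hk]
    · intro i _
      exact (lapu_int ρ hρ (fun t => t ^ i) (by fun_prop)).const_mul _
  rw [hs μ hμ, hs ν hν]
  exact Finset.sum_congr rfl fun i _ => by rw [h i]

theorem st_LAPU : ST_LAPU := by
  intro μ ν _ _ hμ hν h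
  have he : Measurable (fun x : ℝ => Real.exp (-x)) := by fun_prop
  have key : μ.map (fun x : ℝ => Real.exp (-x)) = ν.map (fun x : ℝ => Real.exp (-x)) := by
    apply ext_of_forall_integral_eq_of_IsFiniteMeasure
    intro f
    have hfc : Continuous (fun t => f t) := f.continuous
    refine eq_of_forall_dist_le fun ε hε => ?_
    set M : ℝ := (μ.map (fun x : ℝ => Real.exp (-x))).real Set.univ
      + (ν.map (fun x : ℝ => Real.exp (-x))).real Set.univ + 1 with hM
    have hMpos : 0 < M := by positivity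
    obtain ⟨p, hp⟩ := exists_polynomial_near_of_continuousOn 0 1 (fun t => f t)
      hfc.continuousOn (ε / M) (by positivity)
    have hb : ∀ (ρ : Measure ℝ) [IsFiniteMeasure ρ], ρ (Set.Iio 0) = 0 →
        |∫ t, f t ∂(ρ.map (fun x : ℝ => Real.exp (-x)))
          - ∫ t, p.eval t ∂(ρ.map (fun x : ℝ => Real.exp (-x)))|
          ≤ ε / M * (ρ.map (fun x : ℝ => Real.exp (-x))).real Set.univ := by
      intro ρ _ hρ
      rw [← integral_sub (lapu_int ρ hρ _ hfc) (lapu_int ρ hρ _ p.continuous)]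
      rw [← Real.norm_eq_abs]
      refine norm_integral_le_of_norm_le_const ?_
      filter_upwards [lapu_ae ρ hρ] with t ht
      have := hp t ht
      rw [Real.norm_eq_abs, abs_sub_comm]
      exact this.le
    have h1 := hb μ hμ
    have h2 := hb ν hν
    rw [lapu_poly μ ν hμ hν h p] at h1
    rw [Real.dist_eq]
    have h3 := abs_sub_le (∫ t, f t ∂(μ.map (fun x : ℝ => Real.exp (-x))))
      (∫ t, p.eval t ∂(ν.map (fun x : ℝ => Real.exp (-x))))
      (∫ t, f t ∂(ν.map (fun x : ℝ => Real.exp (-x))))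
    rw [abs_sub_comm (∫ t, p.eval t ∂(ν.map (fun x : ℝ => Real.exp (-x))))] at h3
    refine h3.trans ((add_le_add h1 h2).trans ?_)
    rw [← mul_add, div_mul_eq_mul_div, div_le_iff₀ hMpos]
    refine mul_le_mul_of_nonneg_left ?_ hε.le
    rw [hM]
    linarith
  have hl : ∀ ρ : Measure ℝ,
      (ρ.map (fun x : ℝ => Real.exp (-x))).map (fun t => -Real.log t) = ρ := by
    intro ρ
    rw [Measure.map_map (by fun_prop) he]
    have : (fun t => -Real.log t) ∘ (fun x : ℝ => Real.exp (-x)) = id := by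
      ext x
      simp
    rw [this, Measure.map_id]
  rw [← hl μ, key, hl]

end Pool.Agent.Helper44.GH
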